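import Pool.Agent.P.MP_d9baa8_co.Reg.CS

/-! Ruzsa's Sidon set and its distribution in boxes. -/

namespace Pool.Agent.P.MP_d9baa8_co.Reg

open Finset Function

/-- An exponential map modulo the prime `q + 1`. -/
structure Ex (q : ℕ) where
  e : ZMod q → ZMod (q + 1)
  inj : Injective e
  add : ∀ s t, e (s + t) = e s * e t
  τ : ZMod q
  two : e τ = 2

theorem exists_ex (q : ℕ) [hp : Fact (q + 1).Prime] (h2 : 2 ≤ q) : Nonempty (Ex q) := by
  obtain ⟨g, hg⟩ := IsCyclic.exists_generator (α := (ZMod (q + 1))ˣ)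
  have hc : Nat.card (ZMod (q + 1))ˣ = q := by simp [Nat.totient_prime hp.out]
  let f := zmodMulEquivOfGenerator hg hc
  have h3 : (2 : ZMod (q + 1)) ≠ 0 := by
    intro h
    have := Nat.le_of_dvd two_pos ((ZMod.natCast_eq_zero_iff 2 (q + 1)).1 (by exact_mod_cast h))
    omega
  refine ⟨⟨fun s => (f (Multiplicative.ofAdd s) : (ZMod (q + 1))ˣ), fun s t h => ?_, fun s t => ?_,
    (f.symm (Units.mk0 2 h3)).toAdd, by simp⟩⟩
  · exact f.injective (Units.ext h)
  · rw [ofAdd_add, map_mul, Units.val_mul]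

theorem zinj {n : ℕ} {x y a L : ℤ} (hL : L ≤ n) (hx : x ∈ Ico a (a + L)) (hy : y ∈ Ico a (a + L))
    (h : (x : ZMod n) = y) : x = y := by
  rw [mem_Ico] at hx hy
  have := Int.eq_zero_of_abs_lt_dvd ((ZMod.intCast_eq_intCast_iff_dvd_sub x y n).1 h)
    (abs_lt.2 ⟨by omega, by omega⟩)
  omega

variable {q : ℕ}

variable (q) in
/-- The diagonal map from the integers. -/
def io (x : ℤ) : ZMod q × ZMod (q + 1) := (x, x)

theorem io_add (x y : ℤ) : io q (x + y) = io q x + io q y := by simp [io]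

theorem io_inj {x y a : ℤ} (hx : x ∈ Ico a (a + (q * (q + 1) : ℕ)))
    (hy : y ∈ Ico a (a + (q * (q + 1) : ℕ))) (h : io q x = io q y) : x = y := by
  refine zinj (n := q * (q + 1)) le_rfl hx hy ((ZMod.intCast_eq_intCast_iff_dvd_sub _ _ _).2 ?_)
  rw [Nat.cast_mul]
  exact IsCoprime.mul_dvd (Nat.isCoprime_iff_coprime.2 (by simp))
    ((ZMod.intCast_eq_intCast_iff_dvd_sub _ _ _).1 (congrArg Prod.fst h))
    ((ZMod.intCast_eq_intCast_iff_dvd_sub _ _ _).1 (congrArg Prod.snd h))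

variable (q) in
/-- Row and column coordinates. -/
def ps (z : ℤ × ℤ) : ZMod q × ZMod (q + 1) := io q ((q + 1 : ℕ) * z.1 + z.2)

theorem ps_eq (z : ℤ × ℤ) : ps q z = ((z.1 : ZMod q) + z.2, (z.2 : ZMod (q + 1))) := by
  refine Prod.ext (by simp [ps, io]) ?_
  simp only [ps, io, Int.cast_add, Int.cast_mul, Int.cast_natCast, ZMod.natCast_self, zero_mul,
    zero_add]

theorem ps_add (y z : ℤ × ℤ) : ps q (y + z) = ps q y + ps q z := by
  simp only [ps_eq, Prod.fst_add, Prod.snd_add, Int.cast_add, Prod.mk_add_mk]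
  congr 1; ring

theorem ps_inj {a b T L : ℤ} (hT : T ≤ q) (hL : L ≤ (q + 1 : ℕ)) (t : ZMod q × ZMod (q + 1)) :
    Set.InjOn (fun z => ps q z + t) (Ico a (a + T) ×ˢ Ico b (b + L) : Finset (ℤ × ℤ)) := by
  intro y hy z hz h
  rw [mem_coe, mem_product] at hy hz
  have h1 := add_right_cancel h
  rw [ps_eq, ps_eq, Prod.mk.injEq] at h1
  have h2 := zinj hL hy.2 hz.2 h1.2
  rw [h2, add_left_inj] at h1
  exact Prod.ext (zinj hT hy.1 hz.1 h1.1) h2

variable [NeZero q] (E : Ex q)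

/-- Ruzsa's Sidon set. -/
def R : Finset (ZMod q × ZMod (q + 1)) := univ.filter fun z => z.2 = E.e z.1

theorem mem_R {z : ZMod q × ZMod (q + 1)} : z ∈ R E ↔ z.2 = E.e z.1 := by simp [R]

theorem card_R : (R E).card = q := by
  have : R E = univ.image fun s => (s, E.e s) := by
    ext z
    simp only [mem_R, mem_image, mem_univ, true_and]
    exact ⟨fun h => ⟨z.1, Prod.ext rfl h.symm⟩, fun ⟨s, h⟩ => h ▸ rfl⟩
  rw [this, card_image_of_injective _ fun s t h => congrArg Prod.fst h, card_univ, ZMod.card]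

variable [hp : Fact (q + 1).Prime]

theorem sidon_R : ∀ a ∈ R E, ∀ b ∈ R E, ∀ c ∈ R E, ∀ d ∈ R E, a ≠ b → a - b = c - d → a = c := by
  intro a ha b hb c hc d hd hab h
  rw [mem_R] at ha hb hc hd
  have h1 : a.1 + d.1 = c.1 + b.1 := by
    have := congrArg Prod.fst h
    simp only [Prod.fst_sub] at this
    linear_combination this
  have h2 : a.2 - b.2 = c.2 - d.2 := congrArg Prod.snd h
  have h3 := congrArg E.e h1
  rw [E.add, E.add, ← ha, ← hb, ← hc, ← hd] at h3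
  have h4 : (a.2 - c.2) * (a.2 - b.2) = 0 := by linear_combination a.2 * h2 - h3
  rcases mul_eq_zero.1 h4 with h5 | h5
  · rw [sub_eq_zero] at h5
    exact Prod.ext (E.inj (by rw [← ha, ← hc, h5])) h5
  · rw [sub_eq_zero] at h5
    exact absurd (Prod.ext (E.inj (by rw [← ha, ← hb, h5])) h5) hab

theorem csR {ι κ : Type} (B : Finset ι) (β : ι → ZMod q × ZMod (q + 1)) (hβ : Set.InjOn β B)
    (B' : Finset κ) (β' : κ → ZMod q × ZMod (q + 1)) (hβ' : Set.InjOn β' B') {Z : ℝ} (hZ0 : 0 ≤ Z)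
    (hZ : 2 * (q + 1 : ℝ) * B.card * B'.card ≤ Z ^ 2) :
    |(((B ×ˢ B').filter fun z => β z.1 + β' z.2 ∈ R E).card : ℝ) - B.card * B'.card / (q + 1)| ≤
      Z :=
  abs_le_of_sq_le_sq ((cs (p := q + 1) (by simp) (by simp [card_R]) (by simp; ring) (sidon_R E)
    B β hβ B' β' hβ').trans hZ) hZ0

/-- The number of points of a translate of the Sidon set in a box. -/
noncomputable def cnt (a b : ℤ) (T L : ℕ) (t : ZMod q × ZMod (q + 1)) : ℕ :=
  ((Ico a (a + T) ×ˢ Ico b (b + L)).filter fun z => ps q z + t ∈ R E).card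

theorem box_cs (a b : ℤ) {T L w : ℕ} (hT : T ≤ q) (hL : L ≤ q + 1) (hw : w ≤ q)
    (h4 : 2 * (q + 1) ^ 3 ≤ w ^ 4) (t : ZMod q × ZMod (q + 1)) :
    |((((Ico a (a + T) ×ˢ Ico b (b + L)) ×ˢ (Ico (0 : ℤ) (0 + w) ×ˢ Ico (0 : ℤ) (0 + w))).filter
      fun z => ps q z.1 + t + (ps q z.2 + 0) ∈ R E).card : ℝ) - T * L * (w * w) / (q + 1)| ≤
      w ^ 3 := by
  have := csR E _ _ (ps_inj (a := a) (b := b) (T := T) (L := L) (by exact_mod_cast hT)
    (by exact_mod_cast hL) t) _ _ (ps_inj (a := 0) (b := 0) (T := w) (L := w)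
    (by exact_mod_cast hw) (by exact_mod_cast hw.trans (Nat.le_succ q)) 0) (Z := w ^ 3)
    (by positivity) (by
      simp only [card_product, Int.card_Ico, add_sub_cancel_left, Int.toNat_natCast, Nat.cast_mul]
      have h5 : (T : ℝ) * L ≤ (q + 1) * (q + 1) := by
        exact_mod_cast Nat.mul_le_mul (hT.trans (Nat.le_succ q)) hL
      have h6 : 2 * (q + 1 : ℝ) ^ 3 ≤ w ^ 4 := by exact_mod_cast h4
      calc 2 * (q + 1 : ℝ) * (T * L) * (w * w) ≤ 2 * (q + 1) * ((q + 1) * (q + 1)) * (w * w) := by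
            gcongr
        _ = 2 * (q + 1 : ℝ) ^ 3 * (w * w) := by ring
        _ ≤ w ^ 4 * (w * w) := by gcongr
        _ = _ := by ring)
  simpa only [card_product, Int.card_Ico, add_sub_cancel_left, Int.toNat_natCast, Nat.cast_mul]
    using this

theorem box_up (a b : ℤ) {T L w : ℕ} (hT : T + w ≤ q) (hL : L + w ≤ q + 1)
    (h4 : 2 * (q + 1) ^ 3 ≤ w ^ 4) (t : ZMod q × ZMod (q + 1)) :
    (cnt E a b T L t : ℝ) ≤ (T + w) * (L + w) / (q + 1) + w := by
  have hw : (0 : ℝ) < w := by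
    have : w ≠ 0 := by rintro rfl; simp at h4
    positivity
  have h1 := (abs_le.1 (box_cs E (a - w) (b - w) hT hL (by omega) h4 t)).2
  have h2 : cnt E a b T L t * (w * w) ≤ (((Ico (a - w) (a - w + (T + w : ℕ)) ×ˢ
      Ico (b - w) (b - w + (L + w : ℕ))) ×ˢ (Ico (0 : ℤ) (0 + w) ×ˢ Ico (0 : ℤ) (0 + w))).filter
      fun z => ps q z.1 + t + (ps q z.2 + 0) ∈ R E).card := by
    have : w * w = (Ico (0 : ℤ) (0 + w) ×ˢ Ico (0 : ℤ) (0 + w)).card := by simp
    rw [this, cnt, ← card_product]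
    refine card_le_card_of_injOn (fun z => (z.1 - z.2, z.2)) (fun z hz => ?_) ?_
    · simp only [coe_product, Set.mem_prod, mem_coe, mem_filter, mem_product, mem_Ico] at hz ⊢
      refine ⟨⟨?_, hz.2⟩, ?_⟩
      · simp only [Prod.fst_sub, Prod.snd_sub]
        omega
      · rw [add_zero, add_right_comm, ← ps_add, sub_add_cancel]
        exact hz.1.2
    · intro y _ z _ h
      simp only [Prod.mk.injEq] at h
      exact Prod.ext (sub_left_injective (h.2 ▸ h.1)) h.2
  have h3 : (cnt E a b T L t : ℝ) * (w * w) ≤ ((T + w) * (L + w) / (q + 1) + w) * (w * w) := by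
    have h5 := (Nat.cast_le (α := ℝ)).2 h2
    push_cast at h5 h1
    calc _ ≤ _ := h5
      _ ≤ (T + w) * (L + w) * (w * w) / (q + 1) + w ^ 3 := by linarith
      _ = _ := by ring
  exact le_of_mul_le_mul_right h3 (by positivity)

theorem box_low (a b : ℤ) {T L w : ℕ} (hT : T + w ≤ q) (hL : L + w ≤ q + 1)
    (h4 : 2 * (q + 1) ^ 3 ≤ w ^ 4) (t : ZMod q × ZMod (q + 1)) :
    (T : ℝ) * L / (q + 1) - w ≤ cnt E a b (T + w) (L + w) t := by
  have hw : (0 : ℝ) < w := by
    have : w ≠ 0 := by rintro rfl; simp at h4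
    positivity
  have h1 := (abs_le.1 (box_cs E a b (T := T) (L := L) (by omega) (by omega) (by omega) h4 t)).1
  have h2 : (((Ico a (a + T) ×ˢ Ico b (b + L)) ×ˢ
      (Ico (0 : ℤ) (0 + w) ×ˢ Ico (0 : ℤ) (0 + w))).filter
      fun z => ps q z.1 + t + (ps q z.2 + 0) ∈ R E).card ≤
      cnt E a b (T + w) (L + w) t * (w * w) := by
    have : w * w = (Ico (0 : ℤ) (0 + w) ×ˢ Ico (0 : ℤ) (0 + w)).card := by simp
    rw [this, cnt, ← card_product]
    refine card_le_card_of_injOn (fun z => (z.1 + z.2, z.2)) (fun z hz => ?_) ?_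
    · simp only [coe_product, Set.mem_prod, mem_coe, mem_filter, mem_product, mem_Ico] at hz ⊢
      refine ⟨⟨?_, ?_⟩, hz.1.2⟩
      · simp only [Prod.fst_add, Prod.snd_add]
        omega
      · rw [ps_add, add_right_comm, ← add_zero (ps q z.2)]
        exact hz.2
    · intro y _ z _ h
      simp only [Prod.mk.injEq] at h
      exact Prod.ext (add_left_injective _ (h.2 ▸ h.1)) h.2
  have h3 : ((T : ℝ) * L / (q + 1) - w) * (w * w) ≤ cnt E a b (T + w) (L + w) t * (w * w) := by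
    have h5 := (Nat.cast_le (α := ℝ)).2 h2
    push_cast at h5 h1
    calc _ = T * L * (w * w) / (q + 1) - (w : ℝ) ^ 3 := by ring
      _ ≤ _ := by linarith
  exact le_of_mul_le_mul_right h3 (by positivity)

end Pool.Agent.P.MP_d9baa8_co.Reg
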