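import Mathlib

/-! The Cauchy-Schwarz count for a Sidon set of nearly extremal size. -/

namespace Pool.Agent.P.MP_d9baa8_co.Reg

open Finset

variable {G : Type} [AddCommGroup G] [Fintype G] [DecidableEq G]

theorem cs {R : Finset G} {p : ℝ} (hp : 1 ≤ p) (hR : (R.card : ℝ) = p - 1)
    (hG : (Fintype.card G : ℝ) = p * (p - 1))
    (hS : ∀ a ∈ R, ∀ b ∈ R, ∀ c ∈ R, ∀ d ∈ R, a ≠ b → a - b = c - d → a = c)
    {ι κ : Type} (B : Finset ι) (β : ι → G) (hβ : Set.InjOn β B)
    (B' : Finset κ) (β' : κ → G) (hβ' : Set.InjOn β' B') :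
    ((((B ×ˢ B').filter fun z => β z.1 + β' z.2 ∈ R).card : ℝ) - B.card * B'.card / p) ^ 2 ≤
      2 * p * B.card * B'.card := by
  classical
  let r : G → ℝ := fun y => ∑ b ∈ B', if y + β' b ∈ R then 1 else 0
  have hp0 : 0 < p := by linarith
  have h1 : (((B ×ˢ B').filter fun z => β z.1 + β' z.2 ∈ R).card : ℝ) = ∑ b ∈ B, r (β b) := by
    rw [card_filter, Nat.cast_sum, sum_product]
    simp [r]
  have hone : ∀ c : G, (∑ y : G, if y + c ∈ R then (1 : ℝ) else 0) = p - 1 := by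
    intro c
    rw [← hR, Fintype.sum_equiv (Equiv.addRight c) (fun y => if y + c ∈ R then (1 : ℝ) else 0)
      (fun y => if y ∈ R then (1 : ℝ) else 0) (fun _ => rfl)]
    simp
  have h2 : ∑ y, r y = B'.card * (p - 1) := by
    simp only [r]
    rw [sum_comm]
    simp only [hone, sum_const, nsmul_eq_mul]
  have h3 : ∑ y, r y ^ 2 ≤ B'.card * (p - 1) + B'.card ^ 2 := by
    have h4 : ∀ b ∈ B', ∀ c ∈ B', (∑ y : G, (if y + β' b ∈ R then (1 : ℝ) else 0) *
        (if y + β' c ∈ R then 1 else 0)) ≤ (if b = c then p - 1 else 0) + 1 := by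
      intro b hb c hc
      by_cases hbc : b = c
      · subst hbc
        rw [if_pos rfl, ← hone (β' b)]
        refine le_add_of_le_of_nonneg (sum_le_sum fun y _ => ?_) zero_le_one
        split_ifs <;> simp
      · have h5 : (univ.filter fun y : G => y + β' b ∈ R ∧ y + β' c ∈ R).card ≤ 1 := by
          rw [card_le_one]
          intro y hy z hz
          rw [mem_filter] at hy hz
          exact add_right_cancel (hS _ hy.2.1 _ hy.2.2 _ hz.2.1 _ hz.2.2
            (fun h => hbc (hβ' hb hc (add_left_cancel h))) (by abel))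
        rw [if_neg hbc, zero_add]
        refine le_trans (le_of_eq ?_) (Nat.cast_le_one.2 h5)
        rw [card_filter, Nat.cast_sum]
        refine sum_congr rfl fun y _ => ?_
        by_cases h6 : y + β' b ∈ R <;> by_cases h7 : y + β' c ∈ R <;> simp [h6, h7]
    calc ∑ y, r y ^ 2 = ∑ b ∈ B', ∑ c ∈ B', ∑ y : G, (if y + β' b ∈ R then (1 : ℝ) else 0) *
          (if y + β' c ∈ R then 1 else 0) := by
          simp only [r, sq, sum_mul_sum]
          rw [sum_comm]
          exact sum_congr rfl fun b _ => sum_comm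
      _ ≤ ∑ b ∈ B', ∑ c ∈ B', ((if b = c then p - 1 else 0) + 1) :=
          sum_le_sum fun b hb => sum_le_sum fun c hc => h4 b hb c hc
      _ = ∑ b ∈ B', (p - 1 + B'.card) := sum_congr rfl fun b hb => by
          rw [sum_add_distrib, sum_ite_eq, if_pos hb]; simp
      _ = _ := by rw [sum_const, nsmul_eq_mul]; ring
  have hB' : (B'.card : ℝ) ≤ p * (p - 1) := by
    rw [← hG, ← card_image_of_injOn hβ']
    exact Nat.cast_le.2 (card_le_univ _)
  have hb0 : (0 : ℝ) ≤ B'.card := Nat.cast_nonneg _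
  have h8 : ∑ y, (r y - B'.card / p) ^ 2 ≤ 2 * p * B'.card := by
    have : ∑ y, (r y - B'.card / p) ^ 2 =
        ∑ y, r y ^ 2 - 2 * (B'.card / p) * ∑ y, r y + p * (p - 1) * (B'.card / p) ^ 2 := by
      rw [← hG, mul_sum, ← sum_sub_distrib, ← nsmul_eq_mul, ← card_univ, ← sum_const,
        ← sum_add_distrib]
      exact sum_congr rfl fun y _ => by ring
    rw [this, h2]
    obtain ⟨u, hu⟩ : ∃ u : ℝ, (B'.card : ℝ) = p * u := ⟨B'.card / p, by field_simp⟩
    rw [hu] at h3 hB' hb0 ⊢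
    have hu1 : u ≤ p - 1 := le_of_mul_le_mul_left hB' hp0
    rw [mul_div_cancel_left₀ _ hp0.ne']
    nlinarith [mul_nonneg hb0 (sub_nonneg.2 hu1)]
  have h9 : ∑ b ∈ B, (r (β b) - B'.card / p) ^ 2 ≤ ∑ y, (r y - B'.card / p) ^ 2 := by
    rw [← sum_image (f := fun y => (r y - B'.card / p) ^ 2) hβ]
    exact sum_le_sum_of_subset_of_nonneg (subset_univ _) fun _ _ _ => sq_nonneg _
  have h10 : ∑ b ∈ B, r (β b) - B.card * B'.card / p = ∑ b ∈ B, (r (β b) - B'.card / p) := by
    rw [sum_sub_distrib, sum_const, nsmul_eq_mul, mul_div_assoc]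
  rw [h1, h10]
  calc _ ≤ B.card * ∑ b ∈ B, (r (β b) - B'.card / p) ^ 2 := sq_sum_le_card_mul_sum_sq
    _ ≤ B.card * (2 * p * B'.card) :=
        mul_le_mul_of_nonneg_left (h9.trans h8) (Nat.cast_nonneg _)
    _ = _ := by ring

end Pool.Agent.P.MP_d9baa8_co.Reg
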