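import Mathlib

/-! Disjoint Golomb rulers. -/

namespace Pool.Agent.P.MP_d9baa8_co.Reg

open Finset

/-- A Golomb ruler: the differences `a - b` with `a ≠ b` in `A` are pairwise distinct. -/
def IsGolomb (A : Finset ℤ) : Prop :=
  ∀ a ∈ A, ∀ b ∈ A, ∀ c ∈ A, ∀ d ∈ A, a ≠ b → c ≠ d → a - b = c - d → a = c ∧ b = d

/-- There are `I` pairwise disjoint Golomb rulers with `J` marks each inside the integers from `1`
to `n`. -/
def HasDGR (I J n : ℕ) : Prop :=
  ∃ A : Fin I → Finset ℤ, (∀ i, A i ⊆ Icc (1 : ℤ) n ∧ (A i).card = J ∧ IsGolomb (A i)) ∧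
    ∀ i j, i ≠ j → Disjoint (A i) (A j)

/-- The least `n` for which `HasDGR I J n` holds. -/
noncomputable def H (I J : ℕ) : ℕ := sInf {n | HasDGR I J n}

end Pool.Agent.P.MP_d9baa8_co.Reg
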