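import Pool.Agent.P.MP_d9baa8_co.Reg.Lines
import Pool.Agent.P.MP_d9baa8_co.Reg.Defs

/-! Regular families of disjoint Golomb rulers from Hall's theorem. -/

namespace Pool.Agent.P.MP_d9baa8_co.Reg

open Finset Function

theorem arith0 {p m a b a' b' : ℝ} (ha : 0 ≤ a) (hb : 0 ≤ b) (ha' : 0 ≤ a') (hb' : 0 ≤ b')
    (hm : a + a' = m) (hp : b + b' = p) (hmp : m ≤ p) :
    m ^ 2 * (a + b) ≤ 8 * (p * b * a' + m * a * b') ∨
      m ^ 2 * (a' + b') ≤ 8 * (p * b * a' + m * a * b') := by
  have hm0 : 0 ≤ m := by linarith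
  have hp0 : 0 ≤ p := by linarith
  have h1 : 0 ≤ p * b * a' := by positivity
  have h2 : 0 ≤ m * a * b' := by positivity
  rcases le_total b b' with h | h <;> rcases le_total a a' with h' | h'
  · left
    have h3 : m * m * b ≤ p * (2 * a') * b := by gcongr; linarith
    have h4 : m * m * a ≤ m * (2 * b') * a := by gcongr; linarith
    nlinarith
  · left
    have h3 : m * m * (a + b) ≤ m * (2 * a) * (4 * b') := by gcongr <;> linarith
    nlinarith
  · left
    have h3 : m * m * (a + b) ≤ p * (2 * a') * (4 * b) := by gcongr <;> linarith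
    nlinarith
  · right
    have h3 : m * m * a' ≤ p * (2 * b) * a' := by gcongr; linarith
    have h4 : m * m * b' ≤ m * (2 * a) * b' := by gcongr; linarith
    nlinarith

theorem arith {p m a b a' b' J D C : ℝ} (ha : 0 ≤ a) (hb : 0 ≤ b) (ha' : 0 ≤ a') (hb' : 0 ≤ b')
    (hm : a + a' = m) (hp : b + b' = p) (hmp : m ≤ p) (hp0 : 0 < p) (hJ : 0 ≤ J) (hD0 : 0 ≤ D)
    (hD : 16 * D * p ^ 2 ≤ J * m ^ 2)
    (h1 : b * ((p + m) * J / p - D) + a * ((p + m) * J / p - D) -
      (a * b * ((p + m) * J / p) / p + D * (a + b)) ≤ C)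
    (h2 : (p + m) * J - C ≤ b' * ((p + m) * J / p * (p - m) / p + D) +
      (a' * b' * ((p + m) * J / p) / p + D * (a' + b'))) : J * (a + b) ≤ C := by
  obtain ⟨u, rfl⟩ : ∃ u, J = p ^ 2 * u := ⟨J / p ^ 2, by field_simp⟩
  have hu : 0 ≤ u := nonneg_of_mul_nonneg_right hJ (by positivity)
  have hD' : 16 * D ≤ u * m ^ 2 := by
    refine le_of_mul_le_mul_right ?_ (by positivity : 0 < p ^ 2)
    linarith
  have e1 : (p + m) * (p ^ 2 * u) / p = (p + m) * u * p := by field_simp
  rw [e1] at h1 h2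
  have e2 : a * b * ((p + m) * u * p) / p = a * b * ((p + m) * u) := by field_simp
  have e3 : a' * b' * ((p + m) * u * p) / p = a' * b' * ((p + m) * u) := by field_simp
  have e4 : (p + m) * u * p * (p - m) / p = (p + m) * u * (p - m) := by field_simp
  rw [e2] at h1
  rw [e3, e4] at h2
  rcases arith0 ha hb ha' hb' hm hp hmp with h | h
  · have h3 := mul_le_mul_of_nonneg_left h hu
    have h4 := mul_le_mul_of_nonneg_right hD' (add_nonneg ha hb)
    subst hm hp
    nlinarith
  · have h3 := mul_le_mul_of_nonneg_left h hu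
    have h4 := mul_le_mul_of_nonneg_right hD' (add_nonneg ha' hb')
    have h5 := mul_nonneg hD0 ha'
    subst hm hp
    nlinarith

theorem card_fib {α β : Type} [DecidableEq β] (X : Finset α) (f : α → β) (K : Finset β)
    (P : α → Prop) [DecidablePred P] :
    ((X.filter fun x => f x ∈ K ∧ P x).card : ℝ) =
      ∑ k ∈ K, ((X.filter fun x => f x = k ∧ P x).card : ℝ) := by
  rw [card_eq_sum_card_fiberwise (f := f) (t := K) (fun x hx => (mem_filter.1 hx).2.1),
    Nat.cast_sum]
  refine sum_congr rfl fun k hk => ?_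
  rw [filter_filter]
  congr 2
  exact filter_congr fun x _ => ⟨fun h => ⟨h.2, h.1.2⟩, fun h => ⟨⟨h.1 ▸ hk, h.2⟩, h.1⟩⟩

variable {q : ℕ} [NeZero q] (E : Ex q) [hp : Fact (q + 1).Prime] {m J w : ℕ}

theorem hall_cond (hm : m ≤ q + 1) (hwm : w ≤ m) (hwJ : w ≤ J)
    (hT : (q + 1 + m) * J / (q + 1) + 3 + w ≤ q) (h4 : 2 * (q + 1) ^ 3 ≤ w ^ 4)
    (hD : 16 * (3 * w + 3) * (q + 1) ^ 2 ≤ J * m ^ 2) (S K : Finset (ZMod (q + 1)))
    (hS : ∀ j ∈ S, j.val < m) :
    J * (S.card + K.card) ≤ ((Ico (0 : ℤ) ((q + 1 + m) * J : ℕ)).filter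
      fun x => kk E x ∈ K ∨ jj E x ∈ S).card := by
  set n := (q + 1 + m) * J with hn
  have hn' : (n : ℝ) = (q + 1 + m) * J := by rw [hn]; push_cast; ring
  have hw : w ≤ n / (q + 1) := hwJ.trans ((Nat.le_div_iff_mul_le (Nat.succ_pos q)).2 (by
    rw [hn, mul_comm]; exact Nat.mul_le_mul_right _ (Nat.le_add_right _ _)))
  let M : Finset (ZMod (q + 1)) := univ.filter fun j => j.val < m
  have hM : M.card = m := by
    rw [← card_range m]
    refine card_bij (fun j _ => j.val) (fun j hj => mem_range.2 (mem_filter.1 hj).2)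
      (fun a _ b _ h => ZMod.val_injective _ h) (fun i hi => ?_)
    have h1 : (i : ZMod (q + 1)).val = i := ZMod.val_cast_of_lt ((mem_range.1 hi).trans_le hm)
    exact ⟨i, mem_filter.2 ⟨mem_univ _, by rw [h1]; exact mem_range.1 hi⟩, h1⟩
  have hSM : S ⊆ M := fun j hj => mem_filter.2 ⟨mem_univ _, hS j hj⟩
  have c1 : (S.card : ℝ) + (M \ S).card = m := by
    rw [← hM, ← card_sdiff_add_card_eq_card hSM]; push_cast; ring
  have c2 : (K.card : ℝ) + (Kᶜ).card = q + 1 := by
    have := card_add_card_compl K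
    rw [ZMod.card] at this
    exact_mod_cast this
  set X := Ico (0 : ℤ) n with hX
  have d1 : K.card * ((n : ℝ) / (q + 1) - (3 * w + 3)) ≤ (X.filter fun x => kk E x ∈ K).card := by
    have := card_fib X (kk E) K fun _ => True
    simp only [and_true] at this
    rw [this, ← nsmul_eq_mul]
    refine card_nsmul_le_sum _ _ _ fun k _ => ?_
    simp only [kk_iff]
    exact line_low E hT h4 hw _
  have d2 : S.card * ((n : ℝ) / (q + 1) - (3 * w + 3)) ≤ (X.filter fun x => jj E x ∈ S).card := by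
    have := card_fib X (jj E) S fun _ => True
    simp only [and_true] at this
    rw [this, ← nsmul_eq_mul]
    refine card_nsmul_le_sum _ _ _ fun k _ => ?_
    simp only [jj_iff]
    exact line_low E hT h4 hw _
  have d3 := mix E hT h4 S K
  have d4 := mix E hT h4 (M \ S) Kᶜ
  have d5 : ((X.filter fun x => kk E x ∈ Kᶜ ∧ m ≤ (jj E x).val).card : ℝ) ≤
      (Kᶜ).card * (n / (q + 1) * (q + 1 - m) / (q + 1) + (3 * w + 3)) := by
    rw [card_fib, ← nsmul_eq_mul]
    refine sum_le_card_nsmul _ _ _ fun k _ => ?_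
    refine le_trans (le_of_eq ?_) (line_up E hT h4 hm hwm (0, k) (2 * k.val))
    congr 2
    refine filter_congr fun x _ => ?_
    rw [← kk_iff]
    refine and_congr_right fun hk => ?_
    have : jj E x = ((x + 2 * k.val : ℤ) : ZMod (q + 1)) := by
      push_cast
      rw [ZMod.natCast_zmod_val, ← hk, jj, kk]; ring
    rw [this]
  have d6 : (X.filter fun x => kk E x ∈ K ∨ jj E x ∈ S).card +
      (X.filter fun x => kk E x ∈ K ∧ jj E x ∈ S).card =
      (X.filter fun x => kk E x ∈ K).card + (X.filter fun x => jj E x ∈ S).card := by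
    rw [filter_or, filter_and, card_union_add_card_inter]
  have d7 : n ≤ (X.filter fun x => kk E x ∈ K ∨ jj E x ∈ S).card +
      ((X.filter fun x => kk E x ∈ Kᶜ ∧ m ≤ (jj E x).val).card +
        (X.filter fun x => kk E x ∈ Kᶜ ∧ jj E x ∈ M \ S).card) := by
    have h1 : n = X.card := by simp [hX]
    refine h1.le.trans ((card_le_card fun x hx => ?_).trans ((card_union_le _ _).trans
      (Nat.add_le_add_left (card_union_le _ _) _)))
    simp only [mem_union, mem_filter, hx, true_and, mem_compl, mem_sdiff, M, mem_univ]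
    by_cases h2 : kk E x ∈ K <;> by_cases h3 : jj E x ∈ S <;> simp [h2, h3]
    omega
  have d6' := congrArg (Nat.cast (R := ℝ)) d6
  have d7' := (Nat.cast_le (α := ℝ)).2 d7
  push_cast at d6' d7'
  have := arith (p := q + 1) (m := m) (a := S.card) (b := K.card) (a' := (M \ S).card)
    (b' := (Kᶜ).card) (J := J) (D := 3 * w + 3)
    (C := (X.filter fun x => kk E x ∈ K ∨ jj E x ∈ S).card) (by positivity) (by positivity)
    (by positivity) (by positivity) c1 c2 (by exact_mod_cast hm) (by positivity) (by positivity)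
    (by positivity) (by exact_mod_cast hD) (by rw [← hn']; linarith) (by rw [← hn']; linarith)
  exact_mod_cast this

include E in
theorem regular (hm : m ≤ q + 1) (hwm : w ≤ m) (hwJ : w ≤ J)
    (hT : (q + 1 + m) * J / (q + 1) + 3 + w ≤ q) (h4 : 2 * (q + 1) ^ 3 ≤ w ^ 4)
    (hD : 16 * (3 * w + 3) * (q + 1) ^ 2 ≤ J * m ^ 2) :
    HasDGR (q + 1 + m) J ((q + 1 + m) * J) := by
  set n := (q + 1 + m) * J with hn
  have hnq : n ≤ q * (q + 1) := by
    have h1 := Nat.lt_mul_div_succ n (Nat.succ_pos q)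
    have h2 : (q + 1) * (n / (q + 1) + 1) ≤ (q + 1) * q := Nat.mul_le_mul_left _ (by omega)
    rw [mul_comm q]
    exact h1.le.trans h2
  let tr : ZMod (q + 1) ⊕ Fin m → ZMod q × ZMod (q + 1) :=
    Sum.elim (fun k => (0, k)) fun j => (E.τ, (j.val : ZMod (q + 1)))
  let pts : ZMod (q + 1) ⊕ Fin m → Finset ℤ :=
    fun l => (Ico (0 : ℤ) n).filter fun x => io q x + tr l ∈ R E
  have hval : ∀ j : Fin m, (j.val : ZMod (q + 1)).val = j.val := fun j =>
    ZMod.val_cast_of_lt (j.2.trans_le hm)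
  obtain ⟨f, hf, hf'⟩ := (all_card_le_biUnion_card_iff_exists_injective
      fun z : (ZMod (q + 1) ⊕ Fin m) × Fin J => pts z.1).1 (by
    intro s
    let L := s.image Prod.fst
    have h1 : s.card ≤ L.card * J := by
      have : s ⊆ L ×ˢ univ := fun z hz => mem_product.2 ⟨mem_image_of_mem _ hz, mem_univ _⟩
      simpa using card_le_card this
    let S := L.toRight.image fun j => (j.val : ZMod (q + 1))
    have h2 : S.card = L.toRight.card := card_image_of_injective _ fun i j h =>
      Fin.ext (by rw [← hval i, ← hval j]; exact congrArg ZMod.val h)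
    have h3 := hall_cond E hm hwm hwJ hT h4 hD S L.toLeft (by
      intro j hj
      obtain ⟨i, -, rfl⟩ := mem_image.1 hj
      rw [hval]; exact i.2)
    rw [h2, add_comm, card_toLeft_add_card_toRight, mul_comm] at h3
    refine h1.trans (h3.trans (card_le_card fun x hx => ?_))
    rw [mem_filter] at hx
    rw [mem_biUnion]
    rcases hx.2 with h | h
    · obtain ⟨z, hz, hz'⟩ := mem_image.1 (mem_toLeft.1 h)
      exact ⟨z, hz, mem_filter.2 ⟨hx.1, by rw [hz']; exact (kk_iff E).1 rfl⟩⟩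
    · obtain ⟨i, hi, hi'⟩ := mem_image.1 h
      obtain ⟨z, hz, hz'⟩ := mem_image.1 (mem_toRight.1 hi)
      exact ⟨z, hz, mem_filter.2 ⟨hx.1, by rw [hz']; exact (jj_iff E).1 hi'.symm⟩⟩)
  let e : Fin (q + 1 + m) ≃ ZMod (q + 1) ⊕ Fin m :=
    (Fintype.equivFinOfCardEq (by simp)).symm
  refine ⟨fun i => univ.image fun r => f (e i, r) + 1, fun i => ⟨fun x hx => ?_, ?_, ?_⟩,
    fun i j hij => ?_⟩
  · obtain ⟨r, -, rfl⟩ := mem_image.1 hx
    have := mem_Ico.1 (mem_filter.1 (hf' (e i, r))).1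
    rw [mem_Icc]
    omega
  · rw [card_image_of_injective _ fun r r' h => congrArg Prod.snd (hf (add_right_cancel h))]
    simp
  · intro a ha b hb c hc d hd hab _ h
    obtain ⟨r1, -, rfl⟩ := mem_image.1 ha
    obtain ⟨r2, -, rfl⟩ := mem_image.1 hb
    obtain ⟨r3, -, rfl⟩ := mem_image.1 hc
    obtain ⟨r4, -, rfl⟩ := mem_image.1 hd
    have h1 := mem_filter.1 (hf' (e i, r1))
    have h2 := mem_filter.1 (hf' (e i, r2))
    have h3 := mem_filter.1 (hf' (e i, r3))
    have h5 := mem_filter.1 (hf' (e i, r4))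
    have := line_sidon E hnq _ h1.1 h2.1 h3.1 h1.2 h2.2 h3.2 h5.2 (by omega) (by omega)
    omega
  · rw [disjoint_left]
    intro x hx hx'
    obtain ⟨r, -, rfl⟩ := mem_image.1 hx
    obtain ⟨r', -, h⟩ := mem_image.1 hx'
    exact hij (e.injective (congrArg Prod.fst (hf (add_right_cancel h))).symm)

end Pool.Agent.P.MP_d9baa8_co.Reg
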