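import Pool.Agent.P.MP_d9baa8_co.Reg.Box

/-! The two families of Sidon sets and their intersection numbers in an interval. -/

namespace Pool.Agent.P.MP_d9baa8_co.Reg

open Finset Function

variable {q : ℕ} [NeZero q] (E : Ex q) [hp : Fact (q + 1).Prime]

/-- The first colouring. -/
def kk (x : ℤ) : ZMod (q + 1) := E.e x - x

/-- The second colouring. -/
def jj (x : ℤ) : ZMod (q + 1) := 2 * E.e x - x

theorem kk_iff {x : ℤ} {k : ZMod (q + 1)} : kk E x = k ↔ io q x + (0, k) ∈ R E := by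
  simp only [mem_R, io, kk, Prod.mk_add_mk, add_zero]
  constructor <;> intro h <;> linear_combination -h

theorem jj_iff {x : ℤ} {j : ZMod (q + 1)} : jj E x = j ↔ io q x + (E.τ, j) ∈ R E := by
  simp only [mem_R, io, jj, Prod.mk_add_mk, E.add, E.two]
  constructor <;> intro h <;> linear_combination -h

theorem line_sidon {n : ℕ} (hn : n ≤ q * (q + 1)) (t : ZMod q × ZMod (q + 1)) {x y z u : ℤ}
    (hx : x ∈ Ico (0 : ℤ) n) (hy : y ∈ Ico (0 : ℤ) n) (hz : z ∈ Ico (0 : ℤ) n)
    (hx' : io q x + t ∈ R E) (hy' : io q y + t ∈ R E) (hz' : io q z + t ∈ R E)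
    (hu' : io q u + t ∈ R E) (hxy : x ≠ y) (h : x - y = z - u) : x = z := by
  have hsub : ∀ {v : ℤ}, v ∈ Ico (0 : ℤ) n → v ∈ Ico (0 : ℤ) (0 + (q * (q + 1) : ℕ)) := by
    intro v hv
    rw [mem_Ico] at hv ⊢
    omega
  refine io_inj (hsub hx) (hsub hz) (add_right_cancel (sidon_R E _ hx' _ hy' _ hz' _ hu'
    (fun h1 => hxy (io_inj (hsub hx) (hsub hy) (add_right_cancel h1))) ?_))
  have h1 : io q x + io q u = io q z + io q y := by
    rw [← io_add, ← io_add]; congr 1; omega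
  linear_combination (exp := 1) h1

omit [NeZero q] hp in
theorem div_bounds (n : ℕ) : ((n / (q + 1) : ℕ) : ℝ) ≤ n / (q + 1) ∧
    (n : ℝ) / (q + 1) ≤ (n / (q + 1) : ℕ) + 1 := by
  constructor
  · exact_mod_cast Nat.cast_div_le (α := ℝ) (m := n) (n := q + 1)
  · rw [div_le_iff₀ (by positivity)]
    have := Nat.lt_mul_div_succ n (Nat.succ_pos q)
    have h1 : n ≤ (n / (q + 1) + 1) * (q + 1) := by rw [mul_comm]; exact this.le
    exact_mod_cast h1

variable {n w : ℕ} (hT : n / (q + 1) + 3 + w ≤ q) (h4 : 2 * (q + 1) ^ 3 ≤ w ^ 4)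

include hT h4

theorem line_low (hw : w ≤ n / (q + 1)) (t : ZMod q × ZMod (q + 1)) :
    (n : ℝ) / (q + 1) - (3 * w + 3) ≤ ((Ico (0 : ℤ) n).filter fun x => io q x + t ∈ R E).card := by
  obtain ⟨T, hT'⟩ := Nat.exists_eq_add_of_le' hw
  obtain ⟨L, hL⟩ := Nat.exists_eq_add_of_le' (show w ≤ q + 1 by omega)
  have h1 := box_low E 0 0 (T := T) (L := L) (w := w) (by omega) (by omega) h4 t
  have h2 : cnt E 0 0 (T + w) (L + w) t ≤
      ((Ico (0 : ℤ) n).filter fun x => io q x + t ∈ R E).card := by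
    rw [← hT', ← hL]
    refine card_le_card_of_injOn (fun z => (q + 1 : ℕ) * z.1 + z.2) (fun z hz => ?_) ?_
    · simp only [mem_coe, mem_filter, mem_product, mem_Ico] at hz ⊢
      refine ⟨⟨by nlinarith [hz.1.1.1, hz.1.2.1], ?_⟩, hz.2⟩
      have h3 : (((q + 1) * (n / (q + 1)) : ℕ) : ℤ) ≤ n := Nat.cast_le.2 (Nat.mul_div_le n _)
      rw [Nat.cast_mul] at h3
      nlinarith [hz.1.1.2, hz.1.2.2]
    · intro y hy z hz h
      rw [mem_coe, mem_filter] at hy hz
      refine ps_inj (q := q) (by exact_mod_cast (by omega : n / (q + 1) ≤ q)) le_rfl 0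
        hy.1 hz.1 ?_
      simp only [ps] at h ⊢
      rw [h]
  have h3 := (div_bounds (q := q) n).2
  have h5 : (T : ℝ) - w ≤ T * L / (q + 1) := by
    rw [le_div_iff₀ (by positivity)]
    have h6 : (q + 1 : ℝ) = L + w := by exact_mod_cast hL
    have h7 : (T : ℝ) ≤ q + 1 := by exact_mod_cast (by omega : T ≤ q + 1)
    rw [h6] at h7 ⊢
    nlinarith [mul_le_mul_of_nonneg_right h7 (Nat.cast_nonneg (α := ℝ) w)]
  rw [hT'] at h3
  push_cast at h3
  have := (Nat.cast_le (α := ℝ)).2 h2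
  linarith

theorem line_up {m : ℕ} (hm : m ≤ q + 1) (hw : w ≤ m) (t : ZMod q × ZMod (q + 1)) (c : ℤ) :
    (((Ico (0 : ℤ) n).filter fun x => io q x + t ∈ R E ∧
      m ≤ ((x + c : ℤ) : ZMod (q + 1)).val).card : ℝ) ≤
      n / (q + 1) * (q + 1 - m) / (q + 1) + (3 * w + 3) := by
  obtain ⟨L, hL⟩ := Nat.exists_eq_add_of_le hm
  have hq : (0 : ℤ) < (q + 1 : ℕ) := by positivity
  have h1 := box_up E (c / (q + 1 : ℕ)) m (T := n / (q + 1) + 2) (L := L) (w := w) (by omega)
    (by omega) h4 (t - io q c)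
  have h2 : ((Ico (0 : ℤ) n).filter fun x => io q x + t ∈ R E ∧
      m ≤ ((x + c : ℤ) : ZMod (q + 1)).val).card ≤
      cnt E (c / (q + 1 : ℕ)) m (n / (q + 1) + 2) L (t - io q c) := by
    refine card_le_card_of_injOn (fun x => ((x + c) / (q + 1 : ℕ), (x + c) % (q + 1 : ℕ)))
      (fun x hx => ?_) ?_
    · simp only [mem_coe, mem_filter, mem_product, mem_Ico] at hx ⊢
      refine ⟨⟨⟨Int.ediv_le_ediv hq (by omega), ?_⟩, ?_, ?_⟩, ?_⟩
      · rw [Int.ediv_lt_iff_lt_mul hq]
        have h3 := Int.lt_ediv_add_one_mul_self c hq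
        have h5 : (n : ℤ) < ((q + 1) * (n / (q + 1) + 1) : ℕ) :=
          Nat.cast_lt.2 (Nat.lt_mul_div_succ n (Nat.succ_pos q))
        rw [Nat.cast_mul, Nat.cast_add (n / (q + 1)), Nat.cast_one] at h5
        rw [Nat.cast_add (n / (q + 1)), Nat.cast_ofNat]
        nlinarith [hx.1.2]
      · rw [← ZMod.val_intCast]
        exact_mod_cast hx.2.2
      · have := Int.emod_lt_of_pos (x + c) hq
        omega
      · rw [ps, Int.mul_ediv_add_emod, io_add]
        convert hx.2.1 using 1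
        abel
    · intro x _ y _ h
      simp only [Prod.mk.injEq] at h
      have h3 := Int.mul_ediv_add_emod (x + c) (q + 1 : ℕ)
      rw [h.1, h.2, Int.mul_ediv_add_emod] at h3
      omega
  have h3 := (div_bounds (q := q) n).1
  have h5 := (Nat.cast_le (α := ℝ)).2 h2
  have h6 : (q + 1 : ℝ) = m + L := by exact_mod_cast hL
  have h7 : ((n / (q + 1) : ℕ) : ℝ) + 2 + w ≤ q + 1 := by
    exact_mod_cast (by omega : n / (q + 1) + 2 + w ≤ q + 1)
  have h8 : (L : ℝ) ≤ q + 1 := by exact_mod_cast (by omega : L ≤ q + 1)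
  refine h5.trans (h1.trans ?_)
  rw [Nat.cast_add, Nat.cast_ofNat, show (q + 1 : ℝ) - m = L by linarith]
  have h9 : (((n / (q + 1) : ℕ) : ℝ) + 2 + w) * (L + w) / (q + 1) ≤
      n / (q + 1) * L / (q + 1) + (2 * w + 2) := by
    rw [div_add' _ _ _ (by positivity), div_le_div_iff_of_pos_right (by positivity)]
    have hw0 : (0 : ℝ) ≤ w := Nat.cast_nonneg _
    have hL0 : (0 : ℝ) ≤ L := Nat.cast_nonneg _
    nlinarith [mul_le_mul_of_nonneg_right h3 hL0, mul_le_mul_of_nonneg_right h7 hw0,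
      mul_le_mul_of_nonneg_left h8 (by positivity : (0 : ℝ) ≤ 2 + w)]
  linarith

theorem mix (S K : Finset (ZMod (q + 1))) :
    (((Ico (0 : ℤ) n).filter fun x => kk E x ∈ K ∧ jj E x ∈ S).card : ℝ) ≤
      S.card * K.card * (n / (q + 1)) / (q + 1) + (3 * w + 3) * (S.card + K.card) := by
  have hw : (0 : ℝ) < w := by
    have : w ≠ 0 := by rintro rfl; simp at h4
    positivity
  have hq : (0 : ℤ) < (q + 1 : ℕ) := by positivity
  have hwq : w ≤ q := le_trans (Nat.le_add_left _ _) hT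
  set T := n / (q + 1) with hTdef
  let β : ZMod (q + 1) × ℤ → ZMod q × ZMod (q + 1) := fun z => ps q (z.2, z.1.val)
  let β' : ZMod (q + 1) × ℤ → ZMod q × ZMod (q + 1) :=
    fun z => ps q (z.2, -2 * z.1.val) + (0, z.1)
  have hβ : Set.InjOn β (S ×ˢ Ico (-w : ℤ) (-w + (T + 3 + w : ℕ)) : Finset _) := by
    intro y hy z hz h
    rw [mem_coe, mem_product] at hy hz
    simp only [β, ps_eq, Prod.mk.injEq, Int.cast_natCast, ZMod.natCast_zmod_val] at h
    obtain ⟨h1, h2⟩ := h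
    rw [h2, add_left_inj] at h1
    exact Prod.ext h2 (zinj (by exact_mod_cast hT) hy.2 hz.2 h1)
  have hβ' : Set.InjOn β' (K ×ˢ Ico (0 : ℤ) (0 + w) : Finset _) := by
    intro y hy z hz h
    rw [mem_coe, mem_product] at hy hz
    simp only [β', ps_eq, Prod.mk_add_mk, Prod.mk.injEq, Int.cast_mul, Int.cast_natCast,
      ZMod.natCast_zmod_val, add_zero] at h
    have h1 : y.1 = z.1 := by
      have := h.2
      push_cast at this
      linear_combination -this
    rw [h1, add_left_inj] at h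
    exact Prod.ext h1 (zinj (by exact_mod_cast hwq) hy.2 hz.2 h.1)
  have hTq : (T : ℝ) + 3 + w ≤ q + 1 := by exact_mod_cast (by omega : T + 3 + w ≤ q + 1)
  have hS0 : (0 : ℝ) ≤ S.card := Nat.cast_nonneg _
  have hK0 : (0 : ℝ) ≤ K.card := Nat.cast_nonneg _
  have h1 := (abs_le.1 (csR E _ β hβ _ β' hβ' (Z := w * (S.card + K.card) * w) (by positivity) (by
    simp only [card_product, Int.card_Ico, add_sub_cancel_left, Int.toNat_natCast, Nat.cast_mul]
    have h5 : 2 * (q + 1 : ℝ) ^ 3 ≤ w ^ 4 := by exact_mod_cast h4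
    have h6 : (w : ℝ) ≤ q + 1 := by exact_mod_cast hwq.trans (Nat.le_succ q)
    have h7 : (q + 1 : ℝ) ^ 2 ≤ w ^ 3 := by
      refine le_of_mul_le_mul_right ?_ (by positivity : (0 : ℝ) < q + 1)
      nlinarith [mul_le_mul_of_nonneg_left h6 (by positivity : (0 : ℝ) ≤ w ^ 3),
        (by positivity : (0 : ℝ) ≤ (q + 1) ^ 3)]
    push_cast
    calc 2 * (q + 1 : ℝ) * (S.card * (T + 3 + w)) * (K.card * w)
        ≤ 2 * (q + 1) * (S.card * (q + 1)) * (K.card * w) := by gcongr
      _ = (q + 1) ^ 2 * (2 * S.card * K.card) * w := by ring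
      _ ≤ w ^ 3 * (S.card + K.card) ^ 2 * w := by
        gcongr
        nlinarith
      _ = _ := by ring))).2
  have h2 : ((Ico (0 : ℤ) n).filter fun x => kk E x ∈ K ∧ jj E x ∈ S).card * w ≤
      (((S ×ˢ Ico (-w : ℤ) (-w + (T + 3 + w : ℕ))) ×ˢ (K ×ˢ Ico (0 : ℤ) (0 + w))).filter
        fun z => β z.1 + β' z.2 ∈ R E).card := by
    have hd : ∀ x : ℤ, ((q + 1 : ℕ) : ℤ) ∣ x - (jj E x).val + 2 * (kk E x).val := by
      intro x
      rw [← ZMod.intCast_zmod_eq_zero_iff_dvd]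
      push_cast
      simp only [ZMod.natCast_zmod_val, jj, kk]
      ring
    choose σ hσ using hd
    have : w = (Ico (0 : ℤ) (0 + w)).card := by simp
    conv_lhs => rw [this, ← card_product]
    refine card_le_card_of_injOn (fun z => ((jj E z.1, σ z.1 - z.2), (kk E z.1, z.2)))
      (fun z hz => ?_) ?_
    · simp only [coe_product, Set.mem_prod, mem_coe, mem_filter, mem_product, mem_Ico] at hz ⊢
      have h5 := hσ z.1
      have h6 : ((jj E z.1).val : ℤ) < (q + 1 : ℕ) := Nat.cast_lt.2 (ZMod.val_lt _)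
      have h7 : ((kk E z.1).val : ℤ) < (q + 1 : ℕ) := Nat.cast_lt.2 (ZMod.val_lt _)
      have h8 : (n : ℤ) < ((q + 1) * (T + 1) : ℕ) :=
        Nat.cast_lt.2 (Nat.lt_mul_div_succ n (Nat.succ_pos q))
      rw [Nat.cast_mul, Nat.cast_add T, Nat.cast_one] at h8
      have h9 : -1 < σ z.1 := by
        refine lt_of_mul_lt_mul_left ?_ hq.le
        omega
      have h10 : σ z.1 < T + 3 := by
        refine lt_of_mul_lt_mul_left ?_ hq.le
        rw [← h5]
        nlinarith [hz.1.1.2, Int.natCast_nonneg (jj E z.1).val]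
      refine ⟨⟨⟨hz.1.2.2, by omega, by omega⟩, hz.1.2.1, hz.2⟩, ?_⟩
      simp only [β, β']
      rw [← add_assoc, ← ps_add, ps, ← kk_iff]
      congr 1
      simp only [Prod.mk_add_mk]
      linear_combination -h5
    · intro y _ z _ h
      simp only [Prod.mk.injEq] at h
      have h5 := hσ y.1
      have h6 := hσ z.1
      have h7 : σ y.1 = σ z.1 := by omega
      rw [h.1.1, h.2.1, h7, ← h6] at h5
      exact Prod.ext (by omega) h.2.2
  have h3 := (div_bounds (q := q) n).1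
  have h5 := (Nat.cast_le (α := ℝ)).2 h2
  simp only [card_product, Int.card_Ico, add_sub_cancel_left, Int.toNat_natCast, Nat.cast_mul]
    at h1
  push_cast at h1 h5
  have hK : (K.card : ℝ) ≤ q + 1 := by
    have := card_le_univ K
    rw [ZMod.card] at this
    exact_mod_cast this
  have h6 : (S.card : ℝ) * (T + 3 + w) * (K.card * w) / (q + 1) ≤
      (S.card * K.card * (n / (q + 1)) / (q + 1) + (w + 3) * (S.card + K.card)) * w := by
    rw [add_mul, div_mul_eq_mul_div, div_add' _ _ _ (by positivity),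
      div_le_div_iff_of_pos_right (by positivity)]
    have h7 : (S.card : ℝ) * K.card * T ≤ S.card * K.card * (n / (q + 1)) := by gcongr
    have h8 : (S.card : ℝ) * K.card ≤ (S.card + K.card) * (q + 1) := by nlinarith
    nlinarith [mul_le_mul_of_nonneg_right h7 hw.le,
      mul_le_mul_of_nonneg_right h8 (by positivity : (0 : ℝ) ≤ (w + 3) * w)]
  refine le_of_mul_le_mul_right ?_ hw
  nlinarith [mul_nonneg (mul_nonneg hw.le hw.le) (add_nonneg hS0 hK0)]

end Pool.Agent.P.MP_d9baa8_co.Reg
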