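import Pool.Agent.P.MP_d9baa8_co.Reg.Hall
import Pool.Agent.Lib.PNT.Main

/-! Regular families exist as soon as `I ≥ (1 + ε) J`; consequences for the increments. -/

namespace Pool.Agent.P.MP_d9baa8_co.Reg

open Finset Filter Topology

theorem eventually_prime {t : ℝ} (ht0 : 0 < t) (ht : t < 1) :
    ∀ᶠ y : ℝ in atTop, ∃ p : ℕ, p.Prime ∧ t * y < p ∧ (p : ℝ) ≤ y := by
  have h1 := Pool.Agent.Lib.PNT.theta_tendsto
  have h2 : Tendsto (fun y : ℝ => Chebyshev.theta (t * y) / (t * y) * t) atTop (𝓝 (1 * t)) :=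
    (h1.comp (tendsto_id.const_mul_atTop ht0)).mul_const t
  have h3 := (h1.sub h2).eventually (lt_mem_nhds (show (0 : ℝ) < 1 - 1 * t by linarith))
  filter_upwards [h3, eventually_gt_atTop 0] with y hy hy0
  by_contra hcon
  push Not at hcon
  have h4 : Chebyshev.theta y = Chebyshev.theta (t * y) := by
    unfold Chebyshev.theta
    congr 1
    ext p
    simp only [Finset.mem_filter, Finset.mem_Ioc]
    constructor
    · rintro ⟨⟨h5, h6⟩, h7⟩
      refine ⟨⟨h5, Nat.le_floor ?_⟩, h7⟩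
      by_contra h8
      have h9 := hcon p h7 (not_le.1 h8)
      have := (Nat.le_floor_iff hy0.le).1 h6
      linarith
    · rintro ⟨⟨h5, h6⟩, h7⟩
      exact ⟨⟨h5, h6.trans (Nat.floor_mono (by nlinarith))⟩, h7⟩
  rw [h4] at hy
  have h5 : Chebyshev.theta (t * y) / (t * y) * t = Chebyshev.theta (t * y) / y := by
    field_simp
  rw [h5, sub_self] at hy
  exact lt_irrefl _ hy

theorem ar_rows {δ P m J : ℝ} (h0 : 0 < δ) (h1 : δ ≤ 1 / 10) (hp0 : 0 < P) (hm0 : 0 ≤ m)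
    (hJ : 0 ≤ J) (hI : (1 + 10 * δ) * J ≤ P + m) (hp1 : (1 - δ) * ((1 - δ) * (P + m)) ≤ P) :
    (P + m) * J ≤ (1 - δ) * P * P := by
  have c3 : (1 - 2 * δ) * (P + m) ≤ P := by
    nlinarith [mul_nonneg (sq_nonneg δ) (add_nonneg hp0.le hm0)]
  have c4 : ((1 - 2 * δ) * (P + m)) ^ 2 ≤ P ^ 2 := by
    gcongr
    exact mul_nonneg (by linarith) (by linarith)
  have c5 : (1 + 10 * δ) * ((P + m) * J) ≤ (P + m) ^ 2 := by nlinarith
  have c6 : 1 ≤ (1 - δ) * (1 - 2 * δ) ^ 2 * (1 + 10 * δ) := by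
    nlinarith [mul_nonneg h0.le (sub_nonneg.2 h1), mul_nonneg (sq_nonneg δ) (sub_nonneg.2 h1),
      mul_nonneg h0.le (sq_nonneg δ)]
  have c7 : 0 ≤ (P + m) * J := by positivity
  calc (P + m) * J ≤ (1 - δ) * (1 - 2 * δ) ^ 2 * (1 + 10 * δ) * ((P + m) * J) :=
        le_mul_of_one_le_left c7 c6
    _ = (1 - δ) * (1 - 2 * δ) ^ 2 * ((1 + 10 * δ) * ((P + m) * J)) := by ring
    _ ≤ (1 - δ) * (1 - 2 * δ) ^ 2 * (P + m) ^ 2 := by
        gcongr
        exact mul_nonneg (by linarith) (sq_nonneg _)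
    _ = (1 - δ) * ((1 - 2 * δ) * (P + m)) ^ 2 := by ring
    _ ≤ (1 - δ) * P ^ 2 := by gcongr; linarith
    _ = _ := by ring

theorem regular_mid {δ : ℝ} (h0 : 0 < δ) (h1 : δ ≤ 1 / 10) :
    ∃ J0 : ℕ, ∀ J ≥ J0, ∀ I : ℕ, (1 + 10 * δ) * J ≤ I → I ≤ 5 * J → HasDGR I J (I * J) := by
  obtain ⟨y0, hy0⟩ := eventually_atTop.1 (eventually_prime (t := 1 - δ) (by linarith)
    (by linarith))
  set κ := δ ^ 2 / 480 with hκ
  have hκ0 : 0 < κ := by positivity
  have hκ1 : κ ≤ δ / 10 := by rw [hκ]; nlinarith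
  obtain ⟨J0, hJ0⟩ := exists_nat_ge (2 * (max y0 0 + 2 / κ + 32 / κ ^ 4 + 10 / δ))
  refine ⟨J0, fun J hJ I hI hI5 => ?_⟩
  have hJ' : (J0 : ℝ) ≤ J := Nat.cast_le.2 hJ
  have hI5' : (I : ℝ) ≤ 5 * J := by exact_mod_cast hI5
  have a1 : 0 ≤ max y0 0 := le_max_right _ _
  have a2 : 0 < 2 / κ := by positivity
  have a3 : 0 < 32 / κ ^ 4 := by positivity
  have a4 : 0 < 10 / δ := by positivity
  have hJ0' : (0 : ℝ) < J := by linarith
  have hJI : (J : ℝ) ≤ I := by nlinarith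
  obtain ⟨p, hp, hp1, hp2⟩ := hy0 ((1 - δ) * I) (by nlinarith [le_max_left y0 0])
  have hpI : (I : ℝ) / 2 ≤ p := by nlinarith [mul_nonneg (sq_nonneg δ) (hJ0'.le.trans hJI)]
  have hp0 : (0 : ℝ) < p := by linarith
  have b2 : 2 ≤ κ * p := by
    rw [mul_comm, ← div_le_iff₀ hκ0]; linarith
  have b3 : 32 ≤ κ ^ 4 * p := by
    rw [mul_comm, ← div_le_iff₀ (by positivity)]; linarith
  have b4 : 10 ≤ δ * p := by
    rw [mul_comm, ← div_le_iff₀ h0]; linarith
  obtain ⟨m, rfl⟩ : ∃ m, I = p + m := Nat.exists_eq_add_of_le (by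
    have : (p : ℝ) ≤ I := by nlinarith
    exact_mod_cast this)
  obtain ⟨q, rfl⟩ : ∃ q, p = q + 1 := ⟨p - 1, (Nat.succ_pred_eq_of_pos hp.pos).symm⟩
  have : Fact (q + 1).Prime := ⟨hp⟩
  push_cast at *
  set P : ℝ := q + 1 with hP
  have hq2 : 2 ≤ q := by
    have : (2 : ℝ) ≤ q := by nlinarith
    exact_mod_cast this
  have : NeZero q := ⟨by omega⟩
  obtain ⟨E⟩ := exists_ex q hq2
  set w := ⌊κ * P⌋₊ with hw
  have w1 : (w : ℝ) ≤ κ * P := Nat.floor_le (by positivity)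
  have w2 : κ * P / 2 ≤ w := by
    have := Nat.lt_floor_add_one (κ * P)
    linarith
  have hm0 : (0 : ℝ) ≤ m := Nat.cast_nonneg _
  have hm1 : δ * P ≤ m := by nlinarith
  have hPJ : P ≤ 5 * J := by linarith
  refine regular E (w := w) ?_ ?_ ?_ ?_ ?_ ?_
  · have : (m : ℝ) ≤ q + 1 := by linarith
    exact_mod_cast this
  · have : (w : ℝ) ≤ m := by nlinarith
    exact_mod_cast this
  · have : (w : ℝ) ≤ J := by nlinarith
    exact_mod_cast this
  · have c1 := (div_bounds (q := q) ((q + 1 + m) * J)).1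
    have c2 : (((q + 1 + m) * J : ℕ) : ℝ) / (q + 1) ≤ (1 - δ) * P := by
      rw [div_le_iff₀ hp0]
      push_cast
      rw [← hP]
      exact ar_rows h0 h1 hp0 hm0 hJ0'.le hI hp1.le
    have c3 : κ * P ≤ δ / 10 * P := by gcongr
    have : (((q + 1 + m) * J / (q + 1) : ℕ) : ℝ) + 3 + w ≤ q := by linarith
    exact_mod_cast this
  · have : 2 * P ^ 3 ≤ (w : ℝ) ^ 4 :=
      calc 2 * P ^ 3 = 32 * P ^ 3 / 16 := by ring
        _ ≤ κ ^ 4 * P * P ^ 3 / 16 := by gcongr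
        _ = (κ * P / 2) ^ 4 := by ring
        _ ≤ _ := by gcongr
    rw [hP] at this
    exact_mod_cast this
  · have : 16 * (3 * (w : ℝ) + 3) * P ^ 2 ≤ J * m ^ 2 :=
      calc 16 * (3 * (w : ℝ) + 3) * P ^ 2 ≤ 16 * (6 * (κ * P)) * P ^ 2 := by
            gcongr; linarith
        _ = P / 5 * (δ * P) ^ 2 := by rw [hκ]; ring
        _ ≤ _ := by gcongr; linarith
    rw [hP] at this
    exact_mod_cast this

theorem HasDGR.add {I I' J n n' : ℕ} (h : HasDGR I J n) (h' : HasDGR I' J n') :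
    HasDGR (I + I') J (n + n') := by
  obtain ⟨A, hA, hA'⟩ := h
  obtain ⟨B, hB, hB'⟩ := h'
  have hb : ∀ i, ∀ a ∈ A i, 1 ≤ a ∧ a ≤ n := fun i a ha => mem_Icc.1 ((hA i).1 ha)
  have hb' : ∀ i, ∀ a ∈ B i, 1 ≤ a ∧ a ≤ n' := fun i a ha => mem_Icc.1 ((hB i).1 ha)
  have hcross : ∀ i j, Disjoint (A i) ((B j).image fun a => a + n) := by
    intro i j
    rw [disjoint_left]
    intro x hx hx'
    obtain ⟨a, ha, rfl⟩ := mem_image.1 hx'
    have := hb i _ hx
    have := hb' j _ ha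
    omega
  refine ⟨Fin.addCases A fun j => (B j).image fun a => a + n, fun i => ?_, fun i j => ?_⟩
  · refine Fin.addCases (fun i => ?_) (fun i => ?_) i
    · simp only [Fin.addCases_left]
      refine ⟨fun x hx => ?_, (hA i).2⟩
      have := hb i x hx
      rw [mem_Icc]; push_cast; omega
    · simp only [Fin.addCases_right]
      refine ⟨fun x hx => ?_, (card_image_of_injective _ (add_left_injective _)).trans (hB i).2.1,
        fun a0 ha0 b0 hb0 c0 hc0 d0 hd0 hab hcd h => ?_⟩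
      · obtain ⟨a, ha, rfl⟩ := mem_image.1 hx
        have := hb' i a ha
        rw [mem_Icc]; push_cast; omega
      · obtain ⟨a, ha, rfl⟩ := mem_image.1 ha0
        obtain ⟨b, hb1, rfl⟩ := mem_image.1 hb0
        obtain ⟨c, hc, rfl⟩ := mem_image.1 hc0
        obtain ⟨d, hd, rfl⟩ := mem_image.1 hd0
        have := (hB i).2.2 a ha b hb1 c hc d hd (by omega) (by omega) (by omega)
        omega
  · refine Fin.addCases (fun i => ?_) (fun i => ?_) i <;>
      refine Fin.addCases (fun j => ?_) (fun j => ?_) j <;>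
      simp only [Fin.addCases_left, Fin.addCases_right] <;> intro hij
    · exact hA' i j fun h => hij (by rw [h])
    · exact hcross i j
    · exact (hcross j i).symm
    · exact (disjoint_image (add_left_injective _)).2 (hB' i j fun h => hij (by rw [h]))

theorem HasDGR.mono {I I' J n : ℕ} (h : HasDGR I J n) (hI : I' ≤ I) : HasDGR I' J n := by
  obtain ⟨A, hA, hA'⟩ := h
  exact ⟨fun i => A (i.castLE hI), fun i => hA _,
    fun i j hij => hA' _ _ fun h => hij (Fin.castLE_injective hI h)⟩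

theorem HasDGR.le {I J n : ℕ} (h : HasDGR I J n) : I * J ≤ n := by
  obtain ⟨A, hA, hA'⟩ := h
  have h1 : (univ.biUnion A).card = I * J := by
    rw [card_biUnion fun i _ j _ hij => hA' i j hij]
    simp [fun i => (hA i).2.1]
  have h2 := card_le_card (biUnion_subset.2 fun i (_ : i ∈ univ) => (hA i).1)
  simpa [h1] using h2

theorem H_eq {I J : ℕ} (h : HasDGR I J (I * J)) : H I J = I * J :=
  le_antisymm (Nat.sInf_le h) (HasDGR.le (Nat.sInf_mem (s := {n | HasDGR I J n}) ⟨_, h⟩))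

theorem regular_all {δ : ℝ} (h0 : 0 < δ) (h1 : δ ≤ 1 / 10) :
    ∃ J0 : ℕ, ∀ J ≥ J0, ∀ I : ℕ, (1 + 10 * δ) * J ≤ I → HasDGR I J (I * J) := by
  obtain ⟨J0, hJ0⟩ := regular_mid h0 h1
  refine ⟨J0 + 1, fun J hJ I => ?_⟩
  have hJ1 : (0 : ℝ) ≤ J := Nat.cast_nonneg _
  induction I using Nat.strong_induction_on with
  | _ I ih =>
  intro hI
  by_cases h5 : I ≤ 5 * J
  · exact hJ0 J (by omega) I hI h5
  · obtain ⟨r, rfl⟩ : ∃ r, I = 2 * J + r := Nat.exists_eq_add_of_le (by omega)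
    have h2 : (2 * J : ℝ) ≤ r := by exact_mod_cast (by omega : 2 * J ≤ r)
    rw [add_mul]
    exact (hJ0 J (by omega) _ (by push_cast; nlinarith) (by omega)).add
      (ih r (by omega) (by nlinarith))

theorem erdos_turan {A : Finset ℤ} {n : ℕ} (hA : A ⊆ Icc (1 : ℤ) n) (hG : IsGolomb A) {W : ℕ}
    (hW : 0 < W) : A.card ^ 2 * W ≤ (n + W) * (A.card + W) := by
  let r : ℤ → ℕ := fun y => ∑ t ∈ range W, if y - t ∈ A then 1 else 0
  let Y := Ico (1 : ℤ) (1 + (n + W : ℕ))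
  have hone : ∀ t ∈ range W, (∑ y ∈ Y, if y - t ∈ A then 1 else 0) = A.card := by
    intro t ht
    rw [← card_filter]
    refine card_bij (fun y _ => y - t) (fun y hy => (mem_filter.1 hy).2)
      (fun a _ b _ h => sub_left_injective h) fun a ha => ⟨a + t, ?_, by simp⟩
    have := mem_Icc.1 (hA ha)
    have := mem_range.1 ht
    simp only [mem_filter, Y, mem_Ico, add_sub_cancel_right, ha, and_true]
    omega
  have h2 : ∑ y ∈ Y, r y = W * A.card := by
    simp only [r]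
    rw [sum_comm, sum_congr rfl hone]
    simp
  have h3 : ∑ y ∈ Y, r y ^ 2 ≤ W * (A.card + W) := by
    have h4 : ∀ s ∈ range W, ∀ t ∈ range W, (∑ y ∈ Y, (if y - s ∈ A then 1 else 0) *
        (if y - t ∈ A then 1 else 0)) ≤ (if s = t then A.card else 0) + 1 := by
      intro s hs t ht
      by_cases hst : s = t
      · subst hst
        rw [if_pos rfl, ← hone s hs]
        refine le_add_right (sum_le_sum fun y _ => ?_)
        split_ifs <;> simp
      · have h5 : (Y.filter fun y : ℤ => y - s ∈ A ∧ y - t ∈ A).card ≤ 1 := by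
          rw [card_le_one]
          intro y hy z hz
          rw [mem_filter] at hy hz
          have := hG _ hy.2.1 _ hy.2.2 _ hz.2.1 _ hz.2.2 (by omega) (by omega) (by omega)
          omega
        rw [if_neg hst, zero_add]
        refine le_trans (le_of_eq ?_) h5
        rw [card_filter]
        refine sum_congr rfl fun y _ => ?_
        by_cases h6 : y - s ∈ A <;> by_cases h7 : y - t ∈ A <;> simp [h6, h7]
    calc ∑ y ∈ Y, r y ^ 2 = ∑ s ∈ range W, ∑ t ∈ range W, ∑ y ∈ Y,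
          (if y - s ∈ A then 1 else 0) * (if y - t ∈ A then 1 else 0) := by
          simp only [r, sq, sum_mul_sum]
          rw [sum_comm]
          exact sum_congr rfl fun b _ => sum_comm
      _ ≤ ∑ s ∈ range W, ∑ t ∈ range W, ((if s = t then A.card else 0) + 1) :=
          sum_le_sum fun b hb => sum_le_sum fun c hc => h4 b hb c hc
      _ = ∑ s ∈ range W, (A.card + W) := sum_congr rfl fun b hb => by
          rw [sum_add_distrib, sum_ite_eq, if_pos hb]; simp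
      _ = _ := by simp
  have h6 := sq_sum_le_card_mul_sum_sq (s := Y) (f := r)
  have h7 : Y.card = n + W := by simp only [Y, Int.card_Ico, add_sub_cancel_left, Int.toNat_natCast]
  rw [h2, h7] at h6
  refine Nat.le_of_mul_le_mul_right ?_ hW
  calc A.card ^ 2 * W * W = (W * A.card) ^ 2 := by ring
    _ ≤ (n + W) * (W * (A.card + W)) := h6.trans (Nat.mul_le_mul_left _ h3)
    _ = _ := by ring

theorem H_one_ge {η : ℝ} (h0 : 0 < η) {J : ℕ} (hJ : 1 / η ^ 2 ≤ J) {n : ℕ} (h : HasDGR 1 J n) :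
    (1 - 2 * η) * J ^ 2 - 1 ≤ n := by
  obtain ⟨A, hA, -⟩ := h
  obtain ⟨h1, h2, h3⟩ := hA 0
  have hJ0 : (0 : ℝ) < J := lt_of_lt_of_le (by positivity) hJ
  set W := ⌈η * J ^ 2⌉₊ with hW
  have w1 : η * J ^ 2 ≤ W := Nat.le_ceil _
  have w2 : (W : ℝ) < η * J ^ 2 + 1 := Nat.ceil_lt_add_one (by positivity)
  have w3 : (0 : ℝ) < W := lt_of_lt_of_le (by positivity) w1
  have h4 := (Nat.cast_le (α := ℝ)).2 (erdos_turan h1 h3 (W := W) (by exact_mod_cast w3))
  rw [h2] at h4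
  push_cast at h4
  rw [div_le_iff₀ (by positivity)] at hJ
  have h5 : (J : ℝ) ≤ η * W := by nlinarith [mul_le_mul_of_nonneg_left w1 h0.le]
  have h6 : (J : ℝ) ^ 2 ≤ (n + W) * (1 + η) := by
    refine le_of_mul_le_mul_right ?_ w3
    calc _ ≤ _ := h4
      _ ≤ ((n : ℝ) + W) * (η * W + W) := by gcongr
      _ = _ := by ring
  by_contra hc
  have h7 : (n : ℝ) + W ≤ (1 - η) * J ^ 2 := by linarith
  nlinarith [mul_le_mul_of_nonneg_right h7 (by positivity : 0 ≤ 1 + η),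
    (by positivity : 0 < η ^ 2 * (J : ℝ) ^ 2)]

theorem count_bad {J : ℕ} (hex : ∀ I, ∃ n, HasDGR I J n) (r : ℕ) :
    H 1 J + J * ((range (r + 1)).filter fun I => 1 ≤ I ∧ H I J + J < H (I + 1) J).card ≤
      H (r + 1) J := by
  induction r with
  | zero => simp [filter_singleton]
  | succ r ih =>
    have hm : H (r + 1) J ≤ H (r + 1 + 1) J :=
      Nat.sInf_le ((Nat.sInf_mem (s := {n | HasDGR (r + 1 + 1) J n}) (hex _)).mono (by omega))
    rw [range_add_one, filter_insert]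
    split_ifs with h
    · rw [card_insert_of_notMem (by simp), mul_add]
      omega
    · omega

theorem main {ε : ℝ} (hε : 0 < ε) : ∃ J0 : ℕ, ∀ J ≥ J0,
    (∀ I : ℕ, (1 + ε) * J ≤ I → H I J = I * J ∧ H (I + 1) J ≤ H I J + J) ∧
    {I : ℕ | 1 ≤ I ∧ H I J + J < H (I + 1) J}.Finite ∧
    ({I : ℕ | 1 ≤ I ∧ H I J + J < H (I + 1) J}.ncard : ℝ) ≤ ε * J := by
  set δ := min (ε / 13) (1 / 10) with hδ
  have h0 : 0 < δ := by positivity
  have h1 : δ ≤ ε / 13 := min_le_left _ _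
  obtain ⟨J0, hJ0⟩ := regular_all h0 (min_le_right _ _)
  obtain ⟨J1, hJ1⟩ := exists_nat_ge (1 / δ ^ 2 + 2 / δ + 1)
  refine ⟨J0 + J1, fun J hJ => ?_⟩
  have hJ' : (J1 : ℝ) ≤ J := by exact_mod_cast (by omega : J1 ≤ J)
  have a1 : 0 < 1 / δ ^ 2 := by positivity
  have a2 : 0 < 2 / δ := by positivity
  have hJp : (1 : ℝ) ≤ J := by linarith
  have hreg := hJ0 J (by omega)
  have hgood : ∀ I : ℕ, (1 + 10 * δ) * J ≤ I → H I J = I * J ∧ H (I + 1) J ≤ H I J + J := by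
    intro I hI
    rw [H_eq (hreg I hI), H_eq (hreg (I + 1) (by push_cast; linarith))]
    exact ⟨rfl, (add_one_mul _ _).le⟩
  obtain ⟨r, hr⟩ : ∃ r, ⌈(1 + 10 * δ) * J⌉₊ = r + 1 :=
    ⟨_, (Nat.succ_pred_eq_of_pos (Nat.ceil_pos.2 (by positivity))).symm⟩
  have r1 : (1 + 10 * δ) * J ≤ (r + 1 : ℕ) := hr ▸ Nat.le_ceil _
  have r2 : ((r + 1 : ℕ) : ℝ) < (1 + 10 * δ) * J + 1 := hr ▸ Nat.ceil_lt_add_one (by positivity)
  have hex : ∀ I, ∃ n, HasDGR I J n := fun I =>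
    ⟨_, (hreg (I + (r + 1)) (by
      rw [Nat.cast_add]; exact r1.trans (le_add_of_nonneg_left (Nat.cast_nonneg _)))).mono
      (Nat.le_add_right _ _)⟩
  have hset : {I : ℕ | 1 ≤ I ∧ H I J + J < H (I + 1) J} =
      ((range (r + 1)).filter fun I => 1 ≤ I ∧ H I J + J < H (I + 1) J : Finset ℕ) := by
    ext I
    simp only [Set.mem_ofPred_eq, coe_filter, mem_range]
    refine ⟨fun h => ⟨?_, h⟩, fun h => h.2⟩
    by_contra hc
    exact absurd (hgood I (r1.trans (Nat.cast_le.2 (not_lt.1 hc)))).2 (not_le.2 h.2)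
  refine ⟨fun I hI => hgood I (le_trans (by nlinarith) hI), hset ▸ finite_toSet _, ?_⟩
  rw [hset, Set.ncard_coe_finset]
  have c1 := (Nat.cast_le (α := ℝ)).2 (count_bad hex r)
  rw [(hgood _ r1).1, Nat.cast_add, Nat.cast_mul, Nat.cast_mul] at c1
  have c2 : (1 - 2 * δ) * J ^ 2 - 1 ≤ H 1 J :=
    H_one_ge h0 (by linarith) (Nat.sInf_mem (s := {n | HasDGR 1 J n}) (hex 1))
  have c3 : 2 ≤ δ * J := by
    rw [mul_comm, ← div_le_iff₀ h0]; linarith
  refine le_of_mul_le_mul_left ?_ (by linarith : (0 : ℝ) < J)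
  nlinarith [mul_le_mul_of_nonneg_right r2.le (by linarith : (0 : ℝ) ≤ J),
    mul_le_mul_of_nonneg_right c3 (by linarith : (0 : ℝ) ≤ J),
    mul_le_mul_of_nonneg_right h1 (by positivity : (0 : ℝ) ≤ J ^ 2)]

end Pool.Agent.P.MP_d9baa8_co.Reg
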